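import Pool.Agent.H332.HT.Defs

set_option autoImplicit false

namespace Pool.Agent.H764.HTKL

open Pool.Agent.H332.HT

theorem cramer {a b : V2} (h : det a b ≠ 0) (p : V2) :
    p = (det p b / det a b) • a + (det a p / det a b) • b := by
  have h1 : det a b • p = det p b • a + det a p • b := by
    unfold det
    ext
    · simp only [Prod.smul_fst, Prod.fst_add, smul_eq_mul]
      ring
    · simp only [Prod.smul_snd, Prod.snd_add, smul_eq_mul]
      ring
  have h2 : (det a b)⁻¹ • (det a b • p) = p := by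
    rw [smul_smul, inv_mul_cancel₀ h, one_smul]
  rw [h1, smul_add, smul_smul, smul_smul] at h2
  rw [div_eq_inv_mul, div_eq_inv_mul]
  exact h2.symm

theorem inner (hP : S_P) {K : Set V3} (hK : HB K) {u v : V2} (hu : u ∈ P K) (hv : v ∈ P K)
    {L M : ℝ} (hL : 0 ≤ L) (hM : 0 ≤ M) (h : L + M < 1) : L • u + M • v ∈ IP K := by
  obtain ⟨-, hc, -, h0, -, -, hl⟩ := hP K hK
  rcases (add_nonneg hL hM).eq_or_lt with h1 | h1
  · have hL0 : L = 0 := by linarith
    have hM0 : M = 0 := by linarith
    rw [hL0, hM0, zero_smul, zero_smul, add_zero]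
    exact h0
  · have h2 : (L / (L + M)) • u + (M / (L + M)) • v ∈ P K :=
      hc hu hv (by positivity) (by positivity) (by field_simp)
    have h3 := hl 0 h0 _ h2 (1 - (L + M)) (by linarith) (by linarith)
    have h4 : (1 - (L + M)) • (0 : V2) + (1 - (1 - (L + M))) •
        ((L / (L + M)) • u + (M / (L + M)) • v) = L • u + M • v := by
      rw [smul_zero, zero_add, sub_sub_cancel, smul_add, smul_smul, smul_smul,
        mul_div_cancel₀ _ h1.ne', mul_div_cancel₀ _ h1.ne']
    rwa [h4] at h3

theorem scal (hP : S_P) {K : Set V3} (hK : HB K) {x : V2} (hx : x ∉ IP K) {c : ℝ} (hc : 1 < c) :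
    c • x ∉ P K := by
  intro h
  obtain ⟨-, -, -, h0, -, -, hl⟩ := hP K hK
  apply hx
  have hc0 : 0 < c := by linarith
  have h1 : 1 / c < 1 := by
    rw [div_lt_one hc0]
    exact hc
  have h2 := hl 0 h0 _ h (1 - 1 / c) (by linarith) (by
    have : 0 < 1 / c := by positivity
    linarith)
  have h3 : (1 - 1 / c) • (0 : V2) + (1 - (1 - 1 / c)) • (c • x) = x := by
    rw [smul_zero, zero_add, sub_sub_cancel, smul_smul, one_div, inv_mul_cancel₀ hc0.ne', one_smul]
  rwa [h3] at h2

/-- one half of KL1 -/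
theorem half (hP : S_P) {K : Set V3} (hK : HB K) {a b : V2} (hb : b ∈ P K)
    (ha : a ∉ IP K) {L M : ℝ} (hM : 0 ≤ M) (hp : L • a + M • b ∈ P K) : L ≤ 1 + M := by
  by_contra hcon
  have h1 : 1 + M < L := not_le.1 hcon
  obtain ⟨-, hc, hs, -, -, -, -⟩ := hP K hK
  have hM1 : 0 < 1 + M := by linarith
  have h2 : (1 / (1 + M)) • (L • a + M • b) + (M / (1 + M)) • (-b) ∈ P K :=
    hc hp (hs b hb) (by positivity) (by positivity) (by field_simp)
  have h3 : (1 / (1 + M)) • (L • a + M • b) + (M / (1 + M)) • (-b) = (L / (1 + M)) • a := by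
    rw [smul_add, smul_smul, smul_smul, smul_neg, one_div_mul_eq_div, one_div_mul_eq_div]
    abel
  rw [h3] at h2
  refine scal hP hK ha ?_ h2
  rw [lt_div_iff₀ hM1]
  linarith

theorem kl1 (hP : S_P) : S_KL1 := by
  intro K hK a b p ha hb ha' hb' hp hD hM hL
  have hcr := cramer hD.ne' p
  have hL' : 0 ≤ det p b / det a b := div_nonneg hL hD.le
  have hM' : 0 ≤ det a p / det a b := div_nonneg hM hD.le
  have h1 : det p b / det a b ≤ 1 + det a p / det a b := by
    refine half hP hK hb ha' hM' ?_
    rw [← hcr]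
    exact hp
  have h2 : det a p / det a b ≤ 1 + det p b / det a b := by
    refine half hP hK ha hb' hL' ?_
    rw [add_comm, ← hcr]
    exact hp
  rw [div_le_iff₀ hD, add_mul, div_mul_cancel₀ _ hD.ne'] at h1 h2
  rw [abs_le]
  constructor <;> linarith

theorem kl2 (hP : S_P) : S_KL2 := by
  intro K hK a b y ha hb hy hD hM hL
  obtain ⟨-, -, hs, -, hsi, -, hl⟩ := hP K hK
  have hcr := cramer hD.ne' y
  have hneg : det y b = -det b y := by
    unfold det
    ring
  have hy2 : y = (det b y / det a b) • (-a) + (det a y / det a b) • b := by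
    rw [hneg, neg_div, neg_smul, ← smul_neg] at hcr
    exact hcr
  have hL' : 0 ≤ det b y / det a b := div_nonneg hL hD.le
  have hM' : 0 ≤ det a y / det a b := div_nonneg hM hD.le
  have h1 : 1 ≤ det b y / det a b + det a y / det a b := by
    by_contra hcon
    apply hy
    rw [hy2]
    exact inner hP hK (hs a ha) hb hL' hM' (not_le.1 hcon)
  have h2 : det a b ≤ det a y + det b y := by
    rw [← add_div, le_div_iff₀ hD] at h1
    linarith
  refine ⟨h2, fun hm hM0 hL0 => ?_⟩
  refine lt_of_le_of_ne h2 fun heq => hy ?_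
  have h3 : det b y / det a b + det a y / det a b = 1 := by
    rw [← add_div, div_eq_one_iff_eq hD.ne']
    linarith
  have hL1 : 0 < det b y / det a b := div_pos hL0 hD
  have hM1 : 0 < det a y / det a b := div_pos hM0 hD
  have hm' := hsi _ hm
  set L := det b y / det a b with hLd
  set M := det a y / det a b with hMd
  rcases le_total L M with hLM | hLM
  · have h4 := hl _ hm' b hb (2 * L) (by linarith) (by linarith)
    have h5 : (2 * L) • (-((1 / 2 : ℝ) • (a - b))) + (1 - 2 * L) • b = y := by
      rw [hy2]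
      ext
      · simp only [Prod.smul_fst, Prod.fst_add, Prod.fst_neg, Prod.fst_sub, smul_eq_mul]
        linear_combination (-b.1) * h3
      · simp only [Prod.smul_snd, Prod.snd_add, Prod.snd_neg, Prod.snd_sub, smul_eq_mul]
        linear_combination (-b.2) * h3
    rwa [h5] at h4
  · have h4 := hl _ hm' (-a) (hs a ha) (2 * M) (by linarith) (by linarith)
    have h5 : (2 * M) • (-((1 / 2 : ℝ) • (a - b))) + (1 - 2 * M) • (-a) = y := by
      rw [hy2]
      ext
      · simp only [Prod.smul_fst, Prod.fst_add, Prod.fst_neg, Prod.fst_sub, smul_eq_mul]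
        linear_combination a.1 * h3
      · simp only [Prod.smul_snd, Prod.snd_add, Prod.snd_neg, Prod.snd_sub, smul_eq_mul]
        linear_combination a.2 * h3
    rwa [h5] at h4

theorem kl3 (hP : S_P) : S_KL3 := by
  intro K hK a b p ha hb hp hD hM hL
  have hcr := cramer hD.ne' p
  have hL' : 0 ≤ det p b / det a b := div_nonneg hL hD.le
  have hM' : 0 ≤ det a p / det a b := div_nonneg hM hD.le
  by_contra hcon
  apply hp
  rw [hcr]
  refine inner hP hK ha hb hL' hM' ?_
  rw [← add_div, div_lt_one hD]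
  linarith [not_le.1 hcon]

end Pool.Agent.H764.HTKL
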